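import Pool.Agent.H82.EUC.Stmts4

/-!
# Board euc, row GE3
-/

set_option autoImplicit false

namespace Pool.EUC

theorem ge3_icc (p c r : ℝ) (h : |c - p| ≤ r) : p ∈ Set.Icc (c - r) (c + r) := by
  rw [abs_le] at h
  exact ⟨by linarith [h.2], by linarith [h.1]⟩

theorem ge3_h {n : ℕ} (I : Inst n) (m w : Fin n) (r : ℝ) (h : I.dM m w ≤ r) :
    (I.posW w, I.posM m) ∈ hseg I m r :=
  ⟨ge3_icc _ _ _ h, rfl⟩

theorem ge3_v {n : ℕ} (I : Inst n) (m w : Fin n) (r : ℝ) (h : I.dW w m ≤ r) :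
    (I.posW w, I.posM m) ∈ vseg I w r :=
  ⟨rfl, ge3_icc _ _ _ h⟩

theorem ge3_thm : GE3_S := by
  intro n I μ ν μ' ν' h
  rcases h with ⟨m, h1, h2⟩ | ⟨m, w, h1, h2, h3, h4⟩ | ⟨m, w, h1, h2, h3, h4⟩
  · refine ⟨(I.prefM m, I.posM m), Or.inl ⟨m, h1, ?_⟩, Or.inl ⟨m, h2, ?_⟩⟩
    · refine ⟨ge3_icc _ _ _ ?_, rfl⟩
      rw [sub_self, abs_zero]
      exact abs_nonneg _
    · refine ⟨ge3_icc _ _ _ ?_, rfl⟩
      rw [sub_self, abs_zero]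
      exact abs_nonneg _
  · exact ⟨(I.posW w, I.posM m), Or.inl ⟨m, h1, ge3_h I m w _ h3⟩,
      Or.inr ⟨w, h2, ge3_v I m w _ h4⟩⟩
  · exact ⟨(I.posW w, I.posM m), Or.inr ⟨w, h2, ge3_v I m w _ h4⟩,
      Or.inl ⟨m, h1, ge3_h I m w _ h3⟩⟩

end Pool.EUC
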