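import Pool.Agent.H82.EUC.Stmts6

/-!
# Board euc, row GS3
-/

set_option autoImplicit false

namespace Pool.EUC

theorem gs3_h {n : ℕ} (I : SP n) (m w : Fin n) (r : ℝ) (h : I.dM m w ≤ r) :
    (I.posW w, I.posM m) ∈ hsegS I m r :=
  subset_convexHull ℝ _ ⟨w, h, rfl⟩

theorem gs3_v {n : ℕ} (I : SP n) (m w : Fin n) (r : ℝ) (h : I.dW w m ≤ r) :
    (I.posW w, I.posM m) ∈ vsegS I w r :=
  subset_convexHull ℝ _ ⟨m, h, rfl⟩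

theorem gs3_thm : GS3_S := by
  intro n I μ ν μ' ν' h
  rcases h with ⟨m, h1, h2⟩ | ⟨m, w, h1, h2, h3, h4⟩ | ⟨m, w, h1, h2, h3, h4⟩
  · rcases le_total (I.dM m (ν m)) (I.dM m (ν' m)) with h3 | h3
    · exact ⟨(I.posW (ν m), I.posM m), Or.inl ⟨m, h1, gs3_h I m (ν m) _ le_rfl⟩,
        Or.inl ⟨m, h2, gs3_h I m (ν m) _ h3⟩⟩
    · exact ⟨(I.posW (ν' m), I.posM m), Or.inl ⟨m, h1, gs3_h I m (ν' m) _ h3⟩,
        Or.inl ⟨m, h2, gs3_h I m (ν' m) _ le_rfl⟩⟩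
  · exact ⟨(I.posW w, I.posM m), Or.inl ⟨m, h1, gs3_h I m w _ h3⟩,
      Or.inr ⟨w, h2, gs3_v I m w _ h4⟩⟩
  · exact ⟨(I.posW w, I.posM m), Or.inr ⟨w, h2, gs3_v I m w _ h4⟩,
      Or.inl ⟨m, h1, gs3_h I m w _ h3⟩⟩

end Pool.EUC
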