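import Pool.Agent.H82.EUC.Stmts4

/-!
# Board euc, row PCO
-/

set_option autoImplicit false

namespace Pool.EUC

theorem pco_thm (hCON : CON_S) : PCO_S := by
  intro A _ P _ dM dW hM hW g hg x m m' hm hm'
  refine hCON A dM dW hM hW (g (LowerSet.Iio x)) (g (LowerSet.Iic x)) (hg.stb _) (hg.stb _)
    (hg.mono _ _ ?_) ?_ m m' hm hm'
  · intro u hu
    exact le_of_lt hu
  · intro ν _ hν _ h1 h2 _ _ h3 h4 _ _
    exfalso
    obtain ⟨U, hU1, hU2, hU⟩ := hg.cvx _ _ ν hν h1 h2
    by_cases hx : x ∈ U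
    · apply h4
      rw [← hU]
      congr 1
      refine le_antisymm hU2 ?_
      intro u hu
      exact U.lower hu hx
    · apply h3
      rw [← hU]
      congr 1
      refine le_antisymm ?_ hU1
      intro u hu
      have h5 : u ≤ x := hU2 hu
      exact lt_of_le_of_ne h5 (fun h => hx (h ▸ hu))

end Pool.EUC
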